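import Pool.Agent.H77.Morse.PTime

set_option autoImplicit false

/-!
# Computing the Morse ensemble polynomial is #P-hard

Polynomial time (`PT`) is meant in the model of `Pool.Agent.H7.Comp.Model`: while-programs over
binary trees with unit cost. Numbers of type `ℕ` are encoded in unary, those of type `BN` in binary.
-/

namespace Pool.Agent.Results.MP_8e5830_lc.SharpPHard

open Pool.Agent.H7.Comp Pool.Agent.H77.Morse Pool.Agent.H99.BinDet

/-- **Computing the Morse ensemble polynomial is #P-hard, already for 2-dimensional complexes.**
There are polynomial-time functions `pre` and `post` such that, for every CNF formula `φ`, `pre φ`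
is the list of all simplices of a 2-dimensional simplicial complex `K`, and `post` computes the
number of satisfying assignments of `φ` from `φ` and any list of the monomials of `ME K` with their
coefficients. -/
theorem result :
    ∃ (pre : CNF → List (List ℕ)) (post : CNF × List (List ℕ × BN) → BN), PT pre ∧ PT post ∧
      ∀ φ : CNF, IsComplexList (pre φ) ∧ dim (simplices (pre φ)) = 2 ∧
        (∃ out, IsOutput (simplices (pre φ)) out) ∧
        ∀ out, IsOutput (simplices (pre φ)) out → (post (φ, out)).val = satCount φ := by
  refine ⟨preF, fun x => ⟨postF x.1 x.2⟩, pt_preF, pt_postF, fun φ => ⟨?_, ?_, ?_, ?_⟩⟩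
  · exact isComplexList_cplx _ _
  · exact dim_cplx triL_spec (by unfold triL; simp)
  · exact exists_output _
  · intro out h
    exact postF_correct φ h

end Pool.Agent.Results.MP_8e5830_lc.SharpPHard
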